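import Mathlib

/-! Every weakly left duo ring, with or without identity, is left Dischinger. -/

set_option autoImplicit false

namespace Pool.Agent.Results.MP_1cad20_al.LeftDischinger

universe u

/-- `pw a n` is the power `a ^ (n + 1)` in a ring without identity. -/
def pw {R : Type u} [NonUnitalRing R] (a : R) : ℕ → R
  | 0 => a
  | n + 1 => pw a n * a

/-- For every `a` some left ideal `R a ^ (n + 1)` is a two-sided ideal. -/
def WeaklyLeftDuo (R : Type u) [NonUnitalRing R] : Prop :=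
  ∀ a : R, ∃ (n : ℕ) (I : TwoSidedIdeal R), (I : Set R) = {b | ∃ r : R, b = r * pw a n}

theorem core {S : Type u} [Ring S] (P : S → Prop) (hl : ∀ r s, P s → P (r * s))
    (hr : ∀ r s, P r → P (r * s)) (hs : ∀ r s, P r → P s → P (r - s))
    (h : ∀ a, P a → ∃ n, ∀ r s, P r → P s → ∃ t, P t ∧ r * a ^ (n + 1) * s = t * a ^ (n + 1))
    (a x : S) (pa : P a) (px : P x) (hx : a = x * (a * a)) : ∃ y, P y ∧ a = a * a * y := by
  have idem : ∀ k s, P k → P s → k * k = k → k * s = k * s * k := fun k s pk ps e => by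
    obtain ⟨n, hn⟩ := h k pk
    obtain ⟨t, -, ht⟩ := hn k s pk ps
    rw [(show IsIdempotentElem k from e).pow_succ_eq, e] at ht
    rw [ht, mul_assoc, e]
  set e := x * a with he
  have pe : P e := hl _ _ pa
  have ea : e * a = a := by rw [he, mul_assoc, ← hx]
  have eka : ∀ k : ℕ, e ^ k * a = a := fun k => by
    induction k with
    | zero => simp
    | succ k ih => rw [pow_succ, mul_assoc, ea, ih]
  have ba : ∀ k : ℕ, (1 - e) ^ (k + 1) * a = 0 := fun k => by
    rw [pow_succ, mul_assoc, sub_mul, one_mul, ea, sub_self, mul_zero]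
  obtain ⟨m, hm⟩ := h e pe
  obtain ⟨s, ps, hs1⟩ := hm e a pe pa
  rw [mul_assoc, eka, ea] at hs1
  have big : ∀ j : ℕ, ∃ t, P t ∧ a = t * e ^ j := fun j => by
    induction j with
    | zero => exact ⟨a, pa, by simp⟩
    | succ j ih =>
      obtain ⟨t, pt, ht⟩ := ih
      obtain ⟨v, pv, hv⟩ := hm (x * s) t (hl _ _ ps) pt
      refine ⟨v * e ^ m, hr _ _ pv, ?_⟩
      calc a = x * (s * e ^ (m + 1) * (t * e ^ j)) := by rw [← hs1, ← ht, ← hx]
        _ = x * s * e ^ (m + 1) * t * e ^ j := by simp only [mul_assoc]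
        _ = v * e ^ m * e ^ (j + 1) := by rw [hv, pow_succ, pow_succ']; simp only [mul_assoc]
  obtain ⟨n, hn⟩ := h (e * (1 - e)) (hr _ _ pe)
  have cp : (e * (1 - e)) ^ (n + 1) = e ^ (n + 1) * (1 - e) ^ (n + 1) :=
    ((Commute.one_right e).sub_right (Commute.refl e)).mul_pow _
  obtain ⟨w, pw, hw⟩ : ∃ w, P w ∧ w * a = 1 - (1 - e) ^ (n + 1) :=
    ⟨(∑ i ∈ Finset.range (n + 1), (1 - e) ^ i) * x, hl _ _ px, by
      rw [← geom_sum_mul_neg, sub_sub_cancel, mul_assoc]⟩
  obtain ⟨t, pt, ht⟩ := big (n + 1)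
  obtain ⟨v, -, hv⟩ := hn t w pt pw
  set f := w * a with hf
  have fa : f * a = a := by rw [hw, sub_mul, ba, one_mul, sub_zero]
  have key : a * (1 - f) * f = 0 := by
    have : a * (1 - f) = t * (e * (1 - e)) ^ (n + 1) := by
      rw [hw, sub_sub_cancel, cp, ← mul_assoc, ← ht]
    rw [this, hf, ← mul_assoc, hv, cp, mul_assoc, mul_assoc, ba, mul_zero, mul_zero]
  have f3 : f * f * f = f * f := by
    have : f * (1 - f) * f = 0 := by
      nth_rewrite 1 [hf]
      rw [mul_assoc w, mul_assoc w, key, mul_zero]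
    rw [mul_sub, mul_one, sub_mul, sub_eq_zero] at this
    exact this.symm
  have pf : P f := hl _ _ pa
  set g := f * f with hg
  have gg : g * g = g := by rw [hg, ← mul_assoc, f3, f3]
  have ga : g * a = a := by rw [hg, mul_assoc, fa, fa]
  have ag : a * g = a := by
    have := idem g a (hl _ _ pf) pa gg
    rw [ga] at this
    exact this.symm
  set u := f * w * g with hu
  have pu : P u := hl _ _ (hl _ _ pf)
  have ua : u * a = g := by rw [hu, mul_assoc, ga, mul_assoc]
  have ug : u * g = u := by rw [hu, mul_assoc, gg]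
  have kg : (g - a * u) * g = g - a * u := by rw [sub_mul, gg, mul_assoc, ug]
  have ka : (g - a * u) * a = 0 := by rw [sub_mul, ga, mul_assoc, ua, ag, sub_self]
  have kk : (g - a * u) * (g - a * u) = g - a * u := by
    rw [mul_sub, kg, ← mul_assoc _ a u, ka, zero_mul, sub_zero]
  have := idem _ u (hs _ _ (hl _ _ pf) (hl _ _ pu)) pu kk
  have k0 : g - a * u = 0 := by
    have e1 : (g - a * u) * (u * a) = 0 := by
      rw [← mul_assoc _ u a, this, mul_assoc _ _ a, ka, mul_zero]
    rwa [ua, kg] at e1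
  exact ⟨u, pu, by rw [mul_assoc, ← sub_eq_zero.1 k0, ag]⟩

theorem result (R : Type u) [NonUnitalRing R] (h : WeaklyLeftDuo R) (a : R)
    (ha : ∃ x, a = x * (a * a)) : ∃ y, a = a * a * y := by
  obtain ⟨x, hx⟩ := ha
  have hp : ∀ (b : R) (n : ℕ), ((pw b n : R) : Unitization ℤ R) = (b : Unitization ℤ R) ^ (n + 1) :=
    fun b n => by
      induction n with
      | zero => simp [pw]
      | succ n ih => rw [pw, Unitization.inr_mul, ih, ← pow_succ]
  have hr : ∀ s : Unitization ℤ R, s.fst = 0 → ∃ r : R, s = r := fun s hs =>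
    ⟨s.snd, by ext <;> simp [hs]⟩
  obtain ⟨y, py, hy⟩ := core (S := Unitization ℤ R) (fun s => s.fst = 0)
    (fun r s e => by simp [e]) (fun r s e => by simp [e])
    (fun r s e e' => by simp [sub_eq_add_neg, e, e'])
    (fun b pb => by
      obtain ⟨b, rfl⟩ := hr b pb
      obtain ⟨n, I, hI⟩ := h b
      refine ⟨n, fun r s pr ps => ?_⟩
      obtain ⟨r, rfl⟩ := hr r pr
      obtain ⟨s, rfl⟩ := hr s ps
      have : r * pw b n ∈ (I : Set R) := hI ▸ ⟨r, rfl⟩
      have : r * pw b n * s ∈ (I : Set R) := I.mul_mem_right _ _ this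
      rw [hI] at this
      obtain ⟨t, ht⟩ := this
      exact ⟨t, rfl, by rw [← hp, ← Unitization.inr_mul, ← Unitization.inr_mul, ht,
        Unitization.inr_mul]⟩)
    a x rfl rfl (by rw [← Unitization.inr_mul, ← Unitization.inr_mul, ← hx])
  obtain ⟨y, rfl⟩ := hr y py
  exact ⟨y, Unitization.inr_injective (R := ℤ) (by simpa using hy)⟩

end Pool.Agent.Results.MP_1cad20_al.LeftDischinger
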